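import Pool.Agent.Work.MP_c7798c_co.AllN

set_option autoImplicit false

namespace Pool.Agent.Results.MP_c7798c_co.SublinearGame

open Finset Topology

open Classical in
/-- The legal moves in the position `S` (the set of all integers claimed so far, by either player)
of the saturation game on `{2, …, n}`: the unclaimed `x ∈ {2, …, n}` for which the claimed set
`insert x S` is primitive, i.e. an antichain for divisibility. -/
noncomputable def legalMoves (n : ℕ) (S : Finset ℕ) : Finset ℕ :=
  (Icc 2 n \ S).filter fun x => IsAntichain (· ∣ ·) ((insert x S : Finset ℕ) : Set ℕ)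

theorem card_lt_of_mem {n : ℕ} {S : Finset ℕ} {x : ℕ} (hx : x ∈ legalMoves n S) :
    (Icc 2 n \ insert x S).card < (Icc 2 n \ S).card := by
  classical
  unfold legalMoves at hx
  rw [mem_filter, mem_sdiff] at hx
  apply card_lt_card
  rw [ssubset_iff_of_subset (sdiff_subset_sdiff (Subset.refl _) (subset_insert _ _))]
  exact ⟨x, mem_sdiff.mpr hx.1, fun h => (mem_sdiff.mp h).2 (mem_insert_self _ _)⟩

open Classical in
/-- The minimax value of the position `S`. The players alternate and Prolonger makes the first move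
of the game, so Prolonger is to move when the number `S.card` of claimed integers is even, Shortener
when it is odd. If there is no legal move the game is over and the value is the size `S.card` of the
claimed set; otherwise Prolonger maximises and Shortener minimises the value of the next position. -/
noncomputable def value (n : ℕ) (S : Finset ℕ) : ℕ :=
  if h : (legalMoves n S).Nonempty then
    if Even S.card then
      (legalMoves n S).attach.sup' (attach_nonempty_iff.mpr h) fun x => value n (insert x.1 S)
    else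
      (legalMoves n S).attach.inf' (attach_nonempty_iff.mpr h) fun x => value n (insert x.1 S)
  else S.card
termination_by (Icc 2 n \ S).card
decreasing_by all_goals exact card_lt_of_mem x.2

/-- `L n`: the size of the final claimed set of the saturation game on `{2, …, n}` under optimal
play of both players, Prolonger moving first. -/
noncomputable def L (n : ℕ) : ℕ := value n ∅

lemma antichain_insert {S : Finset ℕ} {x : ℕ} (hS : IsAntichain (· ∣ ·) (S : Set ℕ))
    (hf : Pool.Agent.Work.MP_c7798c_co.Free S x) :
    IsAntichain (· ∣ ·) ((insert x S : Finset ℕ) : Set ℕ) := by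
  intro a ha b hb hab hd
  rw [mem_coe, mem_insert] at ha hb
  rcases ha with rfl | ha <;> rcases hb with rfl | hb
  · exact hab rfl
  · exact (hf b hb).1 hd
  · exact (hf a ha).2 hd
  · exact hS (mem_coe.mpr ha) (mem_coe.mpr hb) hab hd

lemma mem_legal {n : ℕ} {S : Finset ℕ} {x : ℕ} (hS : IsAntichain (· ∣ ·) (S : Set ℕ)) :
    x ∈ legalMoves n S ↔ x ∈ Icc 2 n ∧ Pool.Agent.Work.MP_c7798c_co.Free S x := by
  classical
  unfold legalMoves
  rw [mem_filter, mem_sdiff]
  constructor
  · rintro ⟨⟨h1, h2⟩, h3⟩
    refine ⟨h1, fun y hy => ?_⟩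
    have hne : x ≠ y := fun h => h2 (h ▸ hy)
    exact ⟨h3 (mem_coe.mpr (mem_insert_self _ _)) (mem_coe.mpr (mem_insert_of_mem hy)) hne,
      h3 (mem_coe.mpr (mem_insert_of_mem hy)) (mem_coe.mpr (mem_insert_self _ _)) hne.symm⟩
  · rintro ⟨h1, h2⟩
    exact ⟨⟨h1, h2.notMem⟩, antichain_insert hS h2⟩

/-- The positions of value at least `t` form a winning set in the sense of the game bound. -/
lemma isWin (n : ℕ) (t : ℝ) : Pool.Agent.Work.MP_c7798c_co.IsWin n t
    (fun S => IsAntichain (· ∣ ·) (S : Set ℕ) ∧ t ≤ (value n S : ℝ)) := by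
  classical
  refine ⟨?_, ?_, ?_⟩
  · rintro S ⟨hS, ht⟩ hterm
    have hne : ¬ (legalMoves n S).Nonempty := by
      rintro ⟨x, hx⟩
      rw [mem_legal hS] at hx
      obtain ⟨y, hy, hxy⟩ := hterm x hx.1
      rcases hxy with h | h
      · exact (hx.2 y hy).1 h
      · exact (hx.2 y hy).2 h
    rw [value, dif_neg hne] at ht
    exact ht
  · rintro S ⟨hS, ht⟩ hev ⟨x0, hx0, hf0⟩
    have hne : (legalMoves n S).Nonempty := ⟨x0, (mem_legal hS).mpr ⟨hx0, hf0⟩⟩
    rw [value, dif_pos hne, if_pos hev] at ht
    obtain ⟨⟨x, hx⟩, -, hxe⟩ := exists_mem_eq_sup' (attach_nonempty_iff.mpr hne)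
      (fun x : { x // x ∈ legalMoves n S } => value n (insert x.1 S))
    rw [hxe] at ht
    have hx' := (mem_legal hS).mp hx
    exact ⟨x, hx'.1, hx'.2, antichain_insert hS hx'.2, ht⟩
  · rintro S ⟨hS, ht⟩ hodd x hx hf
    have hxl : x ∈ legalMoves n S := (mem_legal hS).mpr ⟨hx, hf⟩
    have hne : (legalMoves n S).Nonempty := ⟨x, hxl⟩
    rw [value, dif_pos hne, if_neg hodd] at ht
    refine ⟨antichain_insert hS hf, ht.trans ?_⟩
    have h := inf'_le (fun x : { x // x ∈ legalMoves n S } => value n (insert x.1 S))
      (mem_attach (legalMoves n S) ⟨x, hxl⟩)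
    exact_mod_cast h

/-- **The saturation game for primitive sets is sublinear**: `L n / n → 0` as `n → ∞`. -/
theorem result : Filter.Tendsto (fun n : ℕ => (L n : ℝ) / n) Filter.atTop (𝓝 0) := by
  rw [Metric.tendsto_atTop]
  intro ε hε
  obtain ⟨N0, hN0⟩ := Pool.Agent.Work.MP_c7798c_co.main_all ε hε
  refine ⟨N0 + 1, fun n hn => ?_⟩
  have hnpos : (0 : ℝ) < n := by
    have : 0 < n := by omega
    exact_mod_cast this
  have h := hN0 n (by omega)
    (fun S => IsAntichain (· ∣ ·) (S : Set ℕ) ∧ ε * n ≤ (value n S : ℝ))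
  have hlt : (L n : ℝ) < ε * n := by
    by_contra hcon
    push Not at hcon
    exact h ⟨by simp, hcon⟩ (isWin n (ε * n))
  rw [Real.dist_eq, sub_zero, abs_of_nonneg (by positivity), div_lt_iff₀ hnpos]
  exact hlt

end Pool.Agent.Results.MP_c7798c_co.SublinearGame
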